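import Pool.Agent.Results.MP_31b0c0_gt.NotSufficient

set_option autoImplicit false

/-!
# Relation matrices of Alexander modules modulo `t - 1`
-/

namespace Pool.Agent.Y830.AL

open LaurentPolynomial Matrix
open Pool.Agent.Results.MP_31b0c0_gt.NotSufficient

/-- The kernel of a surjection of `ℤⁿ` onto a finite group: a square matrix of relations. -/
lemma exists_kernel_matrix {n : ℕ} {V : Type} [AddCommGroup V] [Finite V]
    (L : (Fin n → ℤ) →ₗ[ℤ] V) (hL : Function.Surjective L) :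
    ∃ K : Matrix (Fin n) (Fin n) ℤ, (∀ i, L (K i) = 0) ∧
      (∀ c, L c = 0 → ∃ w : Fin n → ℤ, c = w ᵥ* K) ∧ K.det.natAbs = Nat.card V := by
  have e : ((Fin n → ℤ) ⧸ LinearMap.ker L) ≃ₗ[ℤ] V := L.quotKerEquivOfSurjective hL
  have hfin : Finite ((Fin n → ℤ) ⧸ LinearMap.ker L) := Finite.of_equiv V e.symm.toEquiv
  have hrank : Module.finrank ℤ (LinearMap.ker L) = Module.finrank ℤ (Fin n → ℤ) :=
    (Submodule.finiteQuotient_iff _).mp hfin
  let b := Pi.basisFun ℤ (Fin n)
  let bN := Submodule.smithNormalFormBotBasis b hrank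
  refine ⟨fun i => (bN i : Fin n → ℤ), fun i => (bN i).2, ?_, ?_⟩
  · intro c hc
    have hc' : c ∈ LinearMap.ker L := hc
    refine ⟨fun i => bN.repr ⟨c, hc'⟩ i, ?_⟩
    have h1 := bN.sum_repr ⟨c, hc'⟩
    have h2 : ((∑ i, (bN.repr ⟨c, hc'⟩) i • bN i : LinearMap.ker L) : Fin n → ℤ) = c :=
      congrArg Subtype.val h1
    ext j
    have h3 := congrFun h2 j
    rw [← h3]
    simp only [Submodule.coe_sum, Submodule.coe_smul, Finset.sum_apply, Pi.smul_apply,
      smul_eq_mul, Matrix.vecMul, dotProduct]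
  · have h1 := Submodule.natAbs_det_basis_change b (LinearMap.ker L) bN
    rw [Nat.card_congr e.toEquiv] at h1
    rw [← h1, Module.Basis.det_apply]
    congr 1
    rw [← Matrix.det_transpose]
    congr 1

/-- The determinant lies in the product of ideals containing the rows. -/
lemma det_mem_prod {R ι : Type*} [CommRing R] [Fintype ι] [DecidableEq ι] (M : Matrix ι ι R)
    (I : ι → Ideal R) (h : ∀ i j, M i j ∈ I i) : M.det ∈ ∏ i, I i := by
  rw [← Matrix.det_transpose, Matrix.det_apply]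
  refine Ideal.sum_mem _ fun σ _ => ?_
  have : ∏ i, Mᵀ (σ i) i ∈ ∏ i, I i := Ideal.prod_mem_prod fun i _ => h i _
  rcases Int.units_eq_one_or (Equiv.Perm.sign σ) with hs | hs
  · rw [hs, one_smul]; exact this
  · rw [hs, Units.neg_smul, one_smul]; exact Ideal.neg_mem_iff _ |>.mpr this

/-- the ideal `(a, t - 1)` -/
noncomputable def J (a : ℤ) : Ideal ℤ[T;T⁻¹] := Ideal.span {C a, T 1 - 1}

lemma s_mem (a : ℤ) : (T 1 - 1 : ℤ[T;T⁻¹]) ∈ J a :=
  Ideal.subset_span (Set.mem_insert_of_mem _ rfl)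

lemma C_mem (a : ℤ) : (C a : ℤ[T;T⁻¹]) ∈ J a := Ideal.subset_span (Set.mem_insert _ _)

lemma mem_J_iff (a : ℤ) (x : ℤ[T;T⁻¹]) : x ∈ J a ↔ a ∣ aug x := by
  constructor
  · intro h
    obtain ⟨u, v, rfl⟩ := Ideal.mem_span_pair.mp h
    rw [map_add, map_mul, map_mul, aug_C, map_sub, aug_T, map_one, sub_self, mul_zero, add_zero]
    exact Dvd.intro_left _ rfl
  · rintro ⟨c, hc⟩
    obtain ⟨s, hs⟩ := aug_decomp x
    rw [hs, hc, map_mul]
    exact Ideal.add_mem _ (Ideal.mul_mem_right _ _ (C_mem a)) (Ideal.mul_mem_right _ _ (s_mem a))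

section

variable {N : Type} [AddCommGroup N] [Module ℤ[T;T⁻¹] N]

lemma pi_zsmul {V : Type} [AddCommGroup V] (π : N →+ V)
    (hk : ∀ x, π ((T 1 - 1 : ℤ[T;T⁻¹]) • x) = 0) (r : ℤ[T;T⁻¹]) (x : N) :
    π (r • x) = (aug r) • π x := by
  obtain ⟨s, hs⟩ := aug_decomp r
  conv_lhs => rw [hs]
  rw [add_smul, mul_smul, map_add, hk, add_zero]
  have : (C (aug r) : ℤ[T;T⁻¹]) • x = (aug r) • x := by
    have : (C (aug r) : ℤ[T;T⁻¹]) = ((aug r : ℤ) : ℤ[T;T⁻¹]) := by
      simp
    rw [this, Int.cast_smul_eq_zsmul]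
  rw [this, map_zsmul]

/-- A square matrix of relations whose determinant lies in the product of the ideals. -/
theorem exists_relations {n : ℕ} (g : Fin n → N)
    (hg : Submodule.span ℤ[T;T⁻¹] (Set.range g) = ⊤)
    {ι : Type} [Fintype ι] [DecidableEq ι] (d : ι → ℕ) (hd : ∀ i, d i ≠ 0)
    (π : N →+ (∀ i, ZMod (d i))) (hπ : Function.Surjective π)
    (hk : ∀ x, π x = 0 ↔ ∃ y, x = (T 1 - 1 : ℤ[T;T⁻¹]) • y) :
    ∃ R : Matrix (Fin n) (Fin n) ℤ[T;T⁻¹], (∀ i, ∑ j, R i j • g j = 0) ∧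
      (aug R.det).natAbs = ∏ i, d i ∧ R.det ∈ ∏ i, J (d i) := by
  classical
  have hne : ∀ i, NeZero (d i) := fun i => ⟨hd i⟩
  have hk0 : ∀ x, π ((T 1 - 1 : ℤ[T;T⁻¹]) • x) = 0 := fun x => (hk _).mpr ⟨x, rfl⟩
  have hgen : ∀ x : N, ∃ c : Fin n → ℤ[T;T⁻¹], ∑ j, c j • g j = x := by
    intro x
    have : x ∈ Submodule.span ℤ[T;T⁻¹] (Set.range g) := by rw [hg]; trivial
    exact (Submodule.mem_span_range_iff_exists_fun _).mp this
  let L : (Fin n → ℤ) →ₗ[ℤ] (∀ i, ZMod (d i)) :=
    Fintype.linearCombination ℤ (fun j => π (g j))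
  have hLapp : ∀ c : Fin n → ℤ, L c = ∑ j, c j • π (g j) := fun c => by
    simp [L, Fintype.linearCombination_apply]
  have hLs : Function.Surjective L := by
    intro y
    obtain ⟨x, rfl⟩ := hπ y
    obtain ⟨c, rfl⟩ := hgen x
    refine ⟨fun j => aug (c j), ?_⟩
    rw [hLapp, map_sum]
    exact Finset.sum_congr rfl fun j _ => (pi_zsmul π hk0 _ _).symm
  obtain ⟨K, hK0, hK1, hKdet⟩ := exists_kernel_matrix L hLs
  have hcard : Nat.card (∀ i, ZMod (d i)) = ∏ i, d i := by
    rw [Nat.card_pi]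
    exact Finset.prod_congr rfl fun i _ => Nat.card_zmod _
  rw [hcard] at hKdet
  -- relations
  have hrow : ∀ i, ∃ D : Fin n → ℤ[T;T⁻¹],
      ∑ j, (C (K i j) - (T 1 - 1) * D j) • g j = 0 := by
    intro i
    have h0 : π (∑ j, (C (K i j) : ℤ[T;T⁻¹]) • g j) = 0 := by
      rw [map_sum, ← hK0 i, hLapp]
      refine Finset.sum_congr rfl fun j _ => ?_
      rw [pi_zsmul π hk0, aug_C]
    obtain ⟨y, hy⟩ := (hk _).mp h0
    obtain ⟨D, hD⟩ := hgen y
    refine ⟨D, ?_⟩
    have h1 : ∀ j, (C (K i j) - (T 1 - 1) * D j) • g j =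
        (C (K i j) : ℤ[T;T⁻¹]) • g j - (T 1 - 1 : ℤ[T;T⁻¹]) • (D j • g j) := fun j => by
      rw [sub_smul, mul_smul]
    rw [Finset.sum_congr rfl fun j _ => h1 j, Finset.sum_sub_distrib, ← Finset.smul_sum, hy, hD,
      sub_self]
  choose D hD using hrow
  let R : Matrix (Fin n) (Fin n) ℤ[T;T⁻¹] := fun i j => C (K i j) - (T 1 - 1) * D i j
  have hRaug : aug.mapMatrix R = K := by
    ext i j
    change aug (C (K i j) - (T 1 - 1) * D i j) = K i j
    rw [map_sub, aug_C, map_mul, map_sub, aug_T, map_one, sub_self, zero_mul, sub_zero]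
  -- lifts
  have hlam : ∀ i x, ∃ a : ℤ, (a : ZMod (d x)) = π (g i) x := fun i x =>
    ZMod.intCast_surjective _
  choose lam hlam using hlam
  have hmu : ∀ x, ∃ c, L c = Pi.single x 1 := fun x => hLs _
  choose mu hmu using hmu
  have hw1 : ∀ i, ∃ w : Fin n → ℤ,
      (Pi.single i 1 - ∑ x, lam i x • mu x : Fin n → ℤ) = w ᵥ* K := by
    intro i
    apply hK1
    rw [map_sub, map_sum]
    have h1 : L (Pi.single i 1) = π (g i) := by
      rw [hLapp, Finset.sum_eq_single i]
      · simp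
      · intro j _ hj; simp [hj]
      · simp
    rw [h1]
    have h2 : ∑ x, L (lam i x • mu x) = π (g i) := by
      ext y
      rw [Finset.sum_apply, Finset.sum_eq_single y]
      · rw [map_smul, hmu]
        simp [hlam]
      · intro x _ hx
        rw [map_smul, hmu]
        simp [Pi.single_eq_of_ne (Ne.symm hx)]
      · simp
    rw [h2, sub_self]
  choose W1 hW1 using hw1
  have hw2 : ∀ x, ∃ w : Fin n → ℤ, ((d x : ℤ) • mu x : Fin n → ℤ) = w ᵥ* K := by
    intro x
    apply hK1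
    rw [map_smul, hmu]
    ext y
    by_cases hxy : y = x
    · subst hxy
      simp
    · simp [Pi.single_eq_of_ne hxy]
  choose W2 hW2 using hw2
  let Lam : Matrix (Fin n) ι ℤ := Matrix.of lam
  let Mu : Matrix ι (Fin n) ℤ := Matrix.of mu
  let Dg : Matrix ι ι ℤ := Matrix.diagonal fun x => (d x : ℤ)
  have e1 : Matrix.of W1 * K = 1 - Lam * Mu := by
    ext i j
    have := congrFun (hW1 i) j
    rw [Matrix.mul_apply]
    simp only [Matrix.vecMul, dotProduct] at this
    simp only [Matrix.of_apply]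
    rw [← this]
    simp [Lam, Mu, Matrix.mul_apply, Matrix.one_apply, Pi.single_apply, eq_comm]
  have e2 : Matrix.of W2 * K = Dg * Mu := by
    ext x j
    have := congrFun (hW2 x) j
    rw [Matrix.mul_apply]
    simp only [Matrix.vecMul, dotProduct] at this
    simp only [Matrix.of_apply]
    rw [← this]
    simp [Dg, Mu, Matrix.diagonal_mul]
  let W : Matrix (Fin n ⊕ ι) (Fin n ⊕ ι) ℤ := Matrix.fromBlocks (Matrix.of W1) (-Lam) (Matrix.of W2) Dg
  let B : Matrix (Fin n ⊕ ι) (Fin n ⊕ ι) ℤ := Matrix.fromBlocks K 0 (-Mu) 1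
  have hWB : W * B = Matrix.fromBlocks 1 (-Lam) 0 Dg := by
    simp only [W, B]
    rw [Matrix.fromBlocks_multiply]
    congr 1
    · rw [e1]; simp
    · simp
    · rw [e2]; simp
    · simp
  have hprod : (∏ i, (d i : ℤ)) ≠ 0 := Finset.prod_ne_zero_iff.mpr fun i _ => by
    exact_mod_cast hd i
  have hdet : W.det * K.det = ∏ i, (d i : ℤ) := by
    have h1 := congrArg Matrix.det hWB
    rw [Matrix.det_mul, Matrix.det_fromBlocks_zero₂₁] at h1
    simp only [B] at h1
    rw [Matrix.det_fromBlocks_zero₁₂, Matrix.det_one, Matrix.det_one, mul_one, one_mul] at h1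
    rw [h1]
    exact Matrix.det_diagonal
  have hWu : W.det.natAbs = 1 := by
    have h1 := congrArg Int.natAbs hdet
    rw [Int.natAbs_mul, hKdet] at h1
    have h2 : (∏ i, (d i : ℤ)).natAbs = ∏ i, d i := by
      rw [← Nat.cast_prod, Int.natAbs_natCast]
    rw [h2] at h1
    have h3 : 0 < ∏ i, d i := Finset.prod_pos fun i _ => Nat.pos_of_ne_zero (hd i)
    exact Nat.eq_of_mul_eq_mul_right h3 (by rw [h1, one_mul])
  refine ⟨R, hD, ?_, ?_⟩
  · rw [RingHom.map_det, hRaug, hKdet]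
  · let CC : ℤ →+* ℤ[T;T⁻¹] := LaurentPolynomial.C
    let W' : Matrix (Fin n ⊕ ι) (Fin n ⊕ ι) ℤ[T;T⁻¹] := CC.mapMatrix W
    let B' : Matrix (Fin n ⊕ ι) (Fin n ⊕ ι) ℤ[T;T⁻¹] :=
      Matrix.fromBlocks R 0 (-(Mu.map CC)) 1
    have hW' : aug.mapMatrix W' = W := by
      ext i j
      change aug (C (W i j)) = W i j
      exact aug_C _
    have hB' : aug.mapMatrix B' = B := by
      ext i j
      rcases i with i | i <;> rcases j with j | j
      · exact congrFun (congrFun hRaug i) j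
      · change aug 0 = 0
        exact map_zero _
      · change aug (-(C (Mu i j))) = -(Mu i j)
        rw [map_neg, aug_C]
      · change aug ((1 : Matrix ι ι ℤ[T;T⁻¹]) i j) = (1 : Matrix ι ι ℤ) i j
        by_cases hij : i = j
        · subst hij
          rw [Matrix.one_apply_eq, Matrix.one_apply_eq, map_one]
        · rw [Matrix.one_apply_ne hij, Matrix.one_apply_ne hij, map_zero]
    have hM : aug.mapMatrix (W' * B') = Matrix.fromBlocks 1 (-Lam) 0 Dg := by
      rw [map_mul, hW', hB', hWB]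
    have hmem : (W' * B').det ∈ ∏ z : Fin n ⊕ ι,
        (Sum.elim (fun _ => (1 : Ideal ℤ[T;T⁻¹])) (fun x => J (d x)) z) := by
      apply det_mem_prod
      rintro (i | x) z
      · simp
      · rw [Sum.elim_inr, mem_J_iff]
        have h1 : aug ((W' * B') (Sum.inr x) z) = aug.mapMatrix (W' * B') (Sum.inr x) z := rfl
        rw [h1, hM]
        rcases z with j | y
        · simp
        · simp only [Matrix.fromBlocks_apply₂₂, Dg]
          by_cases hxy : x = y
          · subst hxy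
            simp
          · rw [Matrix.diagonal_apply_ne _ hxy]
            exact dvd_zero _
    rw [Fintype.prod_sum_type] at hmem
    simp only [Sum.elim_inl, Sum.elim_inr, Finset.prod_const_one, one_mul] at hmem
    rw [Matrix.det_mul] at hmem
    have h1 : W'.det = C W.det := (RingHom.map_det CC W).symm
    have h2 : B'.det = R.det := by
      simp only [B']
      rw [Matrix.det_fromBlocks_zero₁₂, Matrix.det_one, mul_one]
    rw [h1, h2] at hmem
    rcases Int.natAbs_eq W.det with h | h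
    · rw [h, hWu] at hmem
      simpa using hmem
    · rw [h, hWu] at hmem
      simpa using hmem

end

end Pool.Agent.Y830.AL
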