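import Pool.Agent.Y830.AL.Nec

set_option autoImplicit false

/-!
# Failure of sufficiency for all torsion groups which need three generators
-/

namespace Pool.Agent.Y830.AL

open LaurentPolynomial
open Pool.Agent.Results.MP_31b0c0_gt.NotSufficient

lemma J_mono {a b : ℤ} (h : b ∣ a) : J a ≤ J b := by
  intro x hx
  rw [mem_J_iff] at hx ⊢
  exact h.trans hx

lemma prod_le (p : ℕ) {ι : Type} [Fintype ι] (d : ι → ℕ) (S : Finset ι) (hS : 3 ≤ S.card)
    (h : ∀ i ∈ S, p ∣ d i) : ∏ i, J (d i) ≤ J p ^ 3 := by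
  classical
  have h1 : ∏ i, J (d i) = (∏ i ∈ S, J (d i)) * ∏ i ∈ Sᶜ, J (d i) :=
    (Finset.prod_mul_prod_compl S _).symm
  have h2 : ∀ S' : Finset ι, (∀ i ∈ S', p ∣ d i) → ∏ i ∈ S', J (d i) ≤ J (p : ℤ) ^ S'.card := by
    intro S'
    induction S' using Finset.induction_on with
    | empty => intro _; simp
    | insert a s ha ih =>
      intro hh
      rw [Finset.prod_insert ha, Finset.card_insert_of_notMem ha, pow_succ']
      exact Ideal.mul_mono (J_mono (by exact_mod_cast hh a (Finset.mem_insert_self a s)))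
        (ih fun i hi => hh i (Finset.mem_insert_of_mem hi))
  rw [h1]
  exact Ideal.mul_le_right.trans' (by rw [mul_comm]) |>.trans ((h2 S h).trans (Ideal.pow_le_pow_right hS))

section theta

variable (p : ℕ) [Fact p.Prime]

/-- the unit `1 + X` -/
noncomputable def uP : (PowerSeries (ZMod p))ˣ :=
  (PowerSeries.isUnit_iff_constantCoeff.mpr (by simp : IsUnit (PowerSeries.constantCoeff (R := ZMod p) (1 + PowerSeries.X)))).unit

lemma uP_val : (uP p : PowerSeries (ZMod p)) = 1 + PowerSeries.X := rfl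

/-- reduction mod `p` with `t = 1 + X` -/
noncomputable def thetaP : ℤ[T;T⁻¹] →+* PowerSeries (ZMod p) := eval₂ (Int.castRingHom _) (uP p)

lemma thetaP_T_one : thetaP p (T 1) = 1 + PowerSeries.X := by
  simp [thetaP, eval₂_T, uP_val]

lemma thetaP_C (a : ℤ) : thetaP p (C a) = (a : PowerSeries (ZMod p)) := by
  simp [thetaP]

lemma const_thetaP (r : ℤ[T;T⁻¹]) :
    PowerSeries.constantCoeff (thetaP p r) = (aug r : ZMod p) := by
  obtain ⟨s, hs⟩ := aug_decomp r
  conv_lhs => rw [hs]
  rw [map_add, map_add, map_mul, map_mul, thetaP_C, map_sub, thetaP_T_one]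
  simp

lemma p_zero : ((p : ℤ) : PowerSeries (ZMod p)) = 0 := by
  rw [Int.cast_natCast]
  have : ((p : ℕ) : PowerSeries (ZMod p)) = PowerSeries.C ((p : ℕ) : ZMod p) :=
    (map_natCast (PowerSeries.C (R := ZMod p)) p).symm
  rw [this, ZMod.natCast_self, map_zero]

lemma J_le : J p ≤ Ideal.comap (thetaP p) (Ideal.span {PowerSeries.X}) := by
  unfold J
  rw [Ideal.span_le]
  intro x hx
  rcases hx with rfl | hx
  · rw [SetLike.mem_coe, Ideal.mem_comap, thetaP_C, p_zero]
    exact Ideal.zero_mem _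
  · rw [Set.mem_singleton_iff] at hx
    subst hx
    rw [SetLike.mem_coe, Ideal.mem_comap, map_sub, thetaP_T_one, map_one, add_sub_cancel_left]
    exact Ideal.mem_span_singleton_self _

/-- The polynomial `(t² + (N - 2) t + 1) f`. -/
noncomputable def poly (N : ℕ) (f : ℤ[T;T⁻¹]) : ℤ[T;T⁻¹] := (T 2 + C ((N : ℤ) - 2) * T 1 + 1) * f

lemma T_two : (T 2 : ℤ[T;T⁻¹]) = T 1 * T 1 := by rw [← T_add]; norm_num

lemma not_mem_cube (N : ℕ) (hN : p ∣ N) (f : ℤ[T;T⁻¹]) (hf : aug f = 1 ∨ aug f = -1) :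
    poly N f ∉ J p ^ 3 := by
  intro h
  have h1 : poly N f ∈ Ideal.comap (thetaP p) (Ideal.span {PowerSeries.X} ^ 3) :=
    Ideal.le_comap_pow (thetaP p) 3 (Ideal.pow_right_mono (J_le p) 3 h)
  have h2 : thetaP p (poly N f) ∈ (Ideal.span {PowerSeries.X ^ 3} : Ideal (PowerSeries (ZMod p))) := by
    rw [← Ideal.span_singleton_pow]
    exact h1
  obtain ⟨c, hc⟩ := Ideal.mem_span_singleton.mp h2
  have hN0 : ((N : ℤ) : PowerSeries (ZMod p)) = 0 := by
    obtain ⟨m, rfl⟩ := hN
    push_cast
    have := p_zero p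
    push_cast at this
    rw [this, zero_mul]
  have h3 : thetaP p (poly N f) = PowerSeries.X ^ 2 * thetaP p f := by
    unfold poly
    rw [map_mul, map_add, map_add, map_mul, T_two, map_mul, thetaP_T_one, thetaP_C, map_one]
    push_cast at hN0 ⊢
    rw [hN0]
    ring
  rw [h3] at hc
  have hX : (PowerSeries.X ^ 2 : PowerSeries (ZMod p)) ≠ 0 := pow_ne_zero _ PowerSeries.X_ne_zero
  have h4 : thetaP p f = PowerSeries.X * c := by
    apply mul_left_cancel₀ hX
    rw [hc]
    ring
  have h5 := const_thetaP p f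
  rw [h4] at h5
  simp only [map_mul, PowerSeries.constantCoeff_X, zero_mul] at h5
  rcases hf with hf | hf
  · rw [hf] at h5; simp at h5
  · rw [hf] at h5; simp at h5

end theta

lemma aug_poly (N : ℕ) (f : ℤ[T;T⁻¹]) : aug (poly N f) = N * aug f := by
  unfold poly
  rw [map_mul, map_add, map_add, map_mul, aug_T, aug_T, aug_C, map_one]
  ring

lemma poly_symm (N : ℕ) (f : ℤ[T;T⁻¹]) (hf : ∃ k : ℤ, Even k ∧ f = T k * LaurentPolynomial.invert f) :
    ∃ k : ℤ, Even k ∧ poly N f = T k * LaurentPolynomial.invert (poly N f) := by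
  obtain ⟨k, hk, hf⟩ := hf
  refine ⟨k + 2, hk.add (by decide), ?_⟩
  unfold poly
  rw [map_mul, map_add, map_add, map_mul, invert_T, invert_T, map_one, invert_C, T_add]
  have h1 : (T 2 * T (-2) : ℤ[T;T⁻¹]) = 1 := by rw [← T_add]; simp
  have h2 : (T 2 * T (-1) : ℤ[T;T⁻¹]) = T 1 := by rw [← T_add]; norm_num
  have h3 : T k * T 2 * ((T (-2) + C ((N : ℤ) - 2) * T (-1) + 1) * LaurentPolynomial.invert f) =
      (T 2 * T (-2) + C ((N : ℤ) - 2) * (T 2 * T (-1)) + T 2) * (T k * LaurentPolynomial.invert f) := by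
    ring
  rw [h3, h1, h2, ← hf]
  ring

lemma aug_invert (s : ℤ[T;T⁻¹]) : aug (LaurentPolynomial.invert s) = aug s := by
  obtain ⟨u, hu⟩ := aug_decomp s
  conv_lhs => rw [hu]
  rw [map_add, map_mul, map_sub, invert_T, map_one, invert_C, map_add, map_mul, map_sub, aug_T,
    aug_C, map_one, sub_self, zero_mul, add_zero]

/-- For two cyclic factors the new condition follows from the two classical ones. -/
theorem two_generators (a b : ℤ) (Δ : ℤ[T;T⁻¹])
    (hs : ∃ k : ℤ, Even k ∧ Δ = T k * LaurentPolynomial.invert Δ)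
    (h1 : aug Δ = a * b ∨ aug Δ = -(a * b)) : Δ ∈ J a * J b := by
  obtain ⟨k, ⟨m, rfl⟩, hΔ⟩ := hs
  have e0 : aug (T (-m) * Δ) = aug Δ := by rw [map_mul, aug_T, one_mul]
  -- `h = T (-m) Δ` is invariant under inversion
  have hinv : LaurentPolynomial.invert (T (-m) * Δ) = T (-m) * Δ := by
    rw [map_mul, invert_T, neg_neg]
    conv_rhs => rw [hΔ]
    rw [← mul_assoc, ← T_add]
    congr 2
    ring
  obtain ⟨s, hs⟩ := aug_decomp (T (-m) * Δ)
  rw [e0] at hs
  generalize aug Δ = c at hs h1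
  have hT : (T 1 * T (-1) : ℤ[T;T⁻¹]) = 1 := by rw [← T_add]; simp
  have hTm : (T m * T (-m) : ℤ[T;T⁻¹]) = 1 := by rw [← T_add]; simp
  -- `s = - T (-1) * invert s`
  have h2 : (T 1 - 1) * (s + T (-1) * LaurentPolynomial.invert s) = 0 := by
    rw [hs] at hinv
    rw [map_add, map_mul, map_sub, invert_T, map_one, invert_C] at hinv
    have h3 : (T (-1) - 1 : ℤ[T;T⁻¹]) = - T (-1) * (T 1 - 1) := by
      linear_combination hT
    rw [h3] at hinv
    linear_combination -hinv
  have hne : (T 1 - 1 : ℤ[T;T⁻¹]) ≠ 0 := by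
    intro h
    have h3 : (T 1 : ℤ[T;T⁻¹]) = T 0 := by rw [T_zero]; exact sub_eq_zero.mp h
    have h4 := Finsupp.single_left_injective (M := ℤ) (α := ℤ) one_ne_zero (AddMonoidAlgebra.ofCoeff_injective h3)
    exact one_ne_zero h4
  have h3 : s + T (-1) * LaurentPolynomial.invert s = 0 := (mul_eq_zero.mp h2).resolve_left hne
  have h4 := congrArg aug h3
  rw [map_add, map_mul, aug_T, aug_invert, map_zero, one_mul] at h4
  have h5 : aug s = 0 := by omega
  obtain ⟨u, hu⟩ := aug_decomp s
  rw [h5, map_zero, zero_add] at hu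
  have h6 : Δ = T m * C c + T m * u * ((T 1 - 1) * (T 1 - 1)) := by
    rw [hu] at hs
    linear_combination T m * hs - Δ * hTm
  have h7 : (C c : ℤ[T;T⁻¹]) ∈ J a * J b := by
    rcases h1 with h | h
    · rw [h, map_mul]
      exact Ideal.mul_mem_mul (C_mem a) (C_mem b)
    · rw [h, map_neg, map_mul]
      exact (Ideal.neg_mem_iff _).mpr (Ideal.mul_mem_mul (C_mem a) (C_mem b))
  rw [h6]
  exact Ideal.add_mem _ (Ideal.mul_mem_left _ _ h7)
    (Ideal.mul_mem_left _ _ (Ideal.mul_mem_mul (s_mem a) (s_mem b)))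

/-! ## Groups which are not generated by two elements -/

/-- In a product of cyclic groups whose orders are pairwise coprime on a set `S` of indices the
subgroup generated by the characteristic vector of `S` contains all unit vectors of `S`. -/
lemma single_mem {ι : Type} [Fintype ι] [DecidableEq ι] (n : ι → ℕ) (S : Finset ι)
    (hS : ∀ i ∈ S, ∀ j ∈ S, i ≠ j → Nat.Coprime (n i) (n j)) (i : ι) (hi : i ∈ S)
    (G : AddSubgroup (∀ i, ZMod (n i))) (hG : (fun j => if j ∈ S then 1 else 0) ∈ G) :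
    (Pi.single i 1 : ∀ i, ZMod (n i)) ∈ G := by
  have hc : Nat.Coprime (n i) (∏ j ∈ S.erase i, n j) :=
    Nat.Coprime.prod_right fun j hj =>
      hS i hi j (Finset.mem_of_mem_erase hj) (Finset.ne_of_mem_erase hj).symm
  obtain ⟨m, hm1, hm2⟩ := Nat.chineseRemainder hc 1 0
  have : (Pi.single i 1 : ∀ i, ZMod (n i)) = m • (fun j => if j ∈ S then 1 else 0) := by
    ext j
    rw [Pi.smul_apply]
    by_cases hj : j ∈ S
    · by_cases hij : j = i
      · subst hij
        rw [Pi.single_eq_same, if_pos hj, nsmul_eq_mul, mul_one]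
        have := (ZMod.natCast_eq_natCast_iff _ _ _).mpr hm1
        rw [this, Nat.cast_one]
      · rw [Pi.single_eq_of_ne hij, if_pos hj, nsmul_eq_mul, mul_one]
        have h1 : n j ∣ m := by
          have h2 : (∏ j ∈ S.erase i, n j) ∣ m := (Nat.modEq_zero_iff_dvd).mp hm2
          exact (Finset.dvd_prod_of_mem n (Finset.mem_erase.mpr ⟨hij, hj⟩)).trans h2
        exact ((ZMod.natCast_eq_zero_iff _ _).mpr h1).symm
    · have hij : j ≠ i := fun h => hj (h ▸ hi)
      rw [Pi.single_eq_of_ne hij, if_neg hj, smul_zero]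
  rw [this]
  exact G.nsmul_mem hG m

/-- A finite abelian group which is not generated by two elements has a decomposition in which a
prime divides the orders of three cyclic factors. -/
theorem exists_decomposition (V : Type) [AddCommGroup V] [Finite V]
    (hV : ¬ ∃ a b : V, AddSubgroup.closure {a, b} = ⊤) :
    ∃ (ι : Type) (_ : Fintype ι) (n : ι → ℕ) (p : ℕ) (S : Finset ι), p.Prime ∧ 3 ≤ S.card ∧
      (∀ i ∈ S, p ∣ n i) ∧ Nonempty (V ≃+ ∀ i, ZMod (n i)) := by
  classical
  obtain ⟨ι, hι, p, hp, e, ⟨f⟩⟩ := AddCommGroup.equiv_directSum_zmod_of_finite V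
  let f' : V ≃+ ∀ i, ZMod (p i ^ e i) := f.trans (DirectSum.addEquivProd _)
  by_cases hex : ∃ i0, 3 ≤ (Finset.univ.filter fun i => p i = p i0 ∧ e i ≠ 0).card
  · obtain ⟨i0, h0⟩ := hex
    refine ⟨ι, hι, fun i => p i ^ e i, p i0, _, hp i0, h0, ?_, ⟨f'⟩⟩
    intro i hi
    rw [Finset.mem_filter] at hi
    obtain ⟨-, h1, h2⟩ := hi
    rw [← h1]
    exact dvd_pow_self _ h2
  · exfalso
    push Not at hex
    apply hV
    let σ := Fintype.equivFin ι
    let c : ι → Prop := fun i => e i ≠ 0 ∧ ∃ j, σ j < σ i ∧ p j = p i ∧ e j ≠ 0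
    let S1 : Finset ι := Finset.univ.filter fun i => ¬ c i
    let S2 : Finset ι := Finset.univ.filter fun i => c i
    have hcop : ∀ i j, p i ≠ p j ∨ e i = 0 ∨ e j = 0 → Nat.Coprime (p i ^ e i) (p j ^ e j) := by
      rintro i j (h | h | h)
      · exact Nat.Coprime.pow _ _ ((Nat.coprime_primes (hp i) (hp j)).mpr h)
      · rw [h, pow_zero]; exact Nat.coprime_one_left _
      · rw [h, pow_zero]; exact Nat.coprime_one_right _
    have hS1 : ∀ i ∈ S1, ∀ j ∈ S1, i ≠ j → Nat.Coprime (p i ^ e i) (p j ^ e j) := by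
      intro i hi j hj hij
      apply hcop
      by_contra hcon
      push Not at hcon
      obtain ⟨h1, h2, h3⟩ := hcon
      have hi' : ¬ c i := (Finset.mem_filter.mp hi).2
      have hj' : ¬ c j := (Finset.mem_filter.mp hj).2
      rcases lt_trichotomy (σ i) (σ j) with h | h | h
      · exact hj' ⟨h3, i, h, h1, h2⟩
      · exact hij (σ.injective h)
      · exact hi' ⟨h2, j, h, h1.symm, h3⟩
    have hS2 : ∀ i ∈ S2, ∀ j ∈ S2, i ≠ j → Nat.Coprime (p i ^ e i) (p j ^ e j) := by
      have key : ∀ i j, σ i < σ j → c i → c j → p i = p j → False := by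
        rintro i j hlt ⟨h1, k, h2, h3, h4⟩ ⟨h5, -⟩ h6
        have h7 := hex i
        have hsub : ({k, i, j} : Finset ι) ⊆ Finset.univ.filter fun i' => p i' = p i ∧ e i' ≠ 0 := by
          intro x hx
          rw [Finset.mem_insert, Finset.mem_insert, Finset.mem_singleton] at hx
          rw [Finset.mem_filter]
          refine ⟨Finset.mem_univ _, ?_⟩
          rcases hx with rfl | rfl | rfl
          · exact ⟨h3, h4⟩
          · exact ⟨rfl, h1⟩
          · exact ⟨h6.symm, h5⟩
        have h8 : ({k, i, j} : Finset ι).card = 3 := by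
          rw [Finset.card_eq_three]
          refine ⟨k, i, j, ?_, ?_, ?_, rfl⟩
          · rintro rfl; exact lt_irrefl _ h2
          · rintro rfl; exact lt_irrefl _ (h2.trans hlt)
          · rintro rfl; exact lt_irrefl _ hlt
        have := Finset.card_le_card hsub
        omega
      intro i hi j hj hij
      apply hcop
      by_contra hcon
      push Not at hcon
      obtain ⟨h1, h2, h3⟩ := hcon
      have hi' : c i := (Finset.mem_filter.mp hi).2
      have hj' : c j := (Finset.mem_filter.mp hj).2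
      rcases lt_trichotomy (σ i) (σ j) with h | h | h
      · exact key i j h hi' hj' h1
      · exact hij (σ.injective h)
      · exact key j i h hj' hi' h1.symm
    let A : ∀ i, ZMod (p i ^ e i) := fun j => if j ∈ S1 then 1 else 0
    let B : ∀ i, ZMod (p i ^ e i) := fun j => if j ∈ S2 then 1 else 0
    refine ⟨f'.symm A, f'.symm B, ?_⟩
    let G : AddSubgroup (∀ i, ZMod (p i ^ e i)) := (AddSubgroup.closure {f'.symm A, f'.symm B}).map f'.toAddMonoidHom
    have hA : A ∈ G := ⟨f'.symm A, AddSubgroup.subset_closure (Set.mem_insert _ _), f'.apply_symm_apply A⟩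
    have hB : B ∈ G := ⟨f'.symm B, AddSubgroup.subset_closure (Set.mem_insert_of_mem _ rfl),
      f'.apply_symm_apply B⟩
    have hsingle : ∀ i, (Pi.single i 1 : ∀ i, ZMod (p i ^ e i)) ∈ G := by
      intro i
      by_cases hci : c i
      · exact single_mem (fun i => p i ^ e i) S2 hS2 i (Finset.mem_filter.mpr ⟨Finset.mem_univ _, hci⟩) G hB
      · exact single_mem (fun i => p i ^ e i) S1 hS1 i (Finset.mem_filter.mpr ⟨Finset.mem_univ _, hci⟩) G hA
    have hG : ∀ v, v ∈ G := by
      intro v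
      have hne : ∀ i, NeZero (p i ^ e i) := fun i => ⟨pow_ne_zero _ (hp i).ne_zero⟩
      have : v = ∑ i, (v i).val • (Pi.single i 1 : ∀ i, ZMod (p i ^ e i)) := by
        ext j
        rw [Finset.sum_apply, Finset.sum_eq_single j]
        · simp
        · intro i _ hij
          rw [Pi.smul_apply, Pi.single_eq_of_ne (Ne.symm hij), smul_zero]
        · simp
      rw [this]
      exact G.sum_mem fun i _ => G.nsmul_mem (hsingle i) _
    rw [eq_top_iff]
    intro x _
    obtain ⟨y, hy, hyx⟩ := hG (f' x)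
    have : y = x := f'.injective hyx
    rw [← this]
    exact hy

/-- The torsion subgroup of a finitely generated abelian group is finite. -/
lemma finite_torsion (H : Type) [AddCommGroup H] (hH : AddGroup.FG H) :
    Finite (AddCommGroup.torsion H) := by
  have h1 : Module.Finite ℤ H := Module.Finite.iff_addGroup_fg.mpr hH
  have h2 : IsNoetherian ℤ H := isNoetherian_of_isNoetherianRing_of_finite ℤ H
  have h3 : Module.Finite ℤ (AddSubgroup.toIntSubmodule (AddCommGroup.torsion H)) := inferInstance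
  have h4 : AddGroup.FG (AddCommGroup.torsion H) := Module.Finite.iff_addGroup_fg.mp h3
  refine AddCommGroup.finite_of_fg_isAddTorsion _ ?_
  intro x
  rw [isOfFinAddOrder_iff_nsmul_eq_zero]
  obtain ⟨n, hn, h⟩ := isOfFinAddOrder_iff_nsmul_eq_zero.mp (show IsOfFinAddOrder (x : H) from x.2)
  exact ⟨n, hn, Subtype.ext (by rw [AddSubgroup.coe_nsmul, h]; rfl)⟩

/-- **Failure of sufficiency** for every group whose torsion needs three generators. -/
theorem fails (H : Type) [AddCommGroup H] (hR : IsRankOneFG H)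
    (hV : ¬ ∃ a b : AddCommGroup.torsion H, AddSubgroup.closure {a, b} = ⊤)
    (f : ℤ[T;T⁻¹]) (hf : ∃ k : ℤ, Even k ∧ f = T k * LaurentPolynomial.invert f)
    (hf1 : aug f = 1 ∨ aug f = -1) :
    Conditions H (poly (Nat.card (AddCommGroup.torsion H)) f) ∧
      ∀ (M : Type) [TopologicalSpace M],
        ¬ Realizes M H (poly (Nat.card (AddCommGroup.torsion H)) f) := by
  have hC : Conditions H (poly (Nat.card (AddCommGroup.torsion H)) f) := by
    refine ⟨poly_symm _ f hf, ?_⟩
    change aug _ = _ ∨ aug _ = _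
    rw [aug_poly]
    rcases hf1 with h | h
    · left; rw [h, mul_one]
    · right; rw [h]; ring
  refine ⟨hC, fun M _ hM => ?_⟩
  have := finite_torsion H hR.1
  obtain ⟨ι, hι, n, p, S, hp, hS3, hS, ⟨e⟩⟩ := exists_decomposition _ hV
  have : Fact p.Prime := ⟨hp⟩
  have h1 := prod_le p n S hS3 hS (necessary n hR hC hM e)
  have hcard : Nat.card (AddCommGroup.torsion H) = ∏ i, n i := by
    rw [Nat.card_congr e.toEquiv, Nat.card_pi]
    exact Finset.prod_congr rfl fun i _ => Nat.card_zmod _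
  refine not_mem_cube p _ ?_ f hf1 h1
  rw [hcard]
  obtain ⟨i, hi⟩ := Finset.card_pos.mp (by omega : 0 < S.card)
  exact (hS i hi).trans (Finset.dvd_prod_of_mem n (Finset.mem_univ i))

end Pool.Agent.Y830.AL
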