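import Pool.Agent.Y830.AL.Alg

set_option autoImplicit false

/-!
# The necessary condition `Δ ∈ ∏ (d_i, t - 1)`
-/

namespace Pool.Agent.Y830.AL

open LaurentPolynomial
open Pool.Agent.Results.MP_31b0c0_gt.NotSufficient

/-- Units modulo a power of `t - 1` can be cancelled. -/
lemma unit_cancel (I : Ideal ℤ[T;T⁻¹]) (m : ℕ) (hs : (T 1 - 1 : ℤ[T;T⁻¹]) ^ m ∈ I)
    (q Δ : ℤ[T;T⁻¹]) (hq : (aug q).natAbs = 1) (h : q * Δ ∈ I) : Δ ∈ I := by
  obtain ⟨v, hv⟩ := aug_decomp q
  have key : ∀ u : ℤ[T;T⁻¹], (1 + (T 1 - 1) * u) * Δ ∈ I → Δ ∈ I := by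
    intro u hu
    have h1 := mul_neg_geom_sum (-((T 1 - 1) * u)) m
    have h2 : Δ = (∑ i ∈ Finset.range m, (-((T 1 - 1) * u)) ^ i) * ((1 + (T 1 - 1) * u) * Δ) +
        (-u) ^ m * Δ * (T 1 - 1) ^ m := by
      have h3 : (-((T 1 - 1) * u)) ^ m = (-u) ^ m * (T 1 - 1) ^ m := by
        rw [← mul_pow]; ring
      rw [h3] at h1
      linear_combination -Δ * h1
    rw [h2]
    exact I.add_mem (I.mul_mem_left _ hu) (I.mul_mem_left _ hs)
  rcases Int.natAbs_eq (aug q) with h1 | h1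
  · rw [h1, hq] at hv
    apply key v
    convert h using 2
    rw [hv]
    simp
  · rw [h1, hq] at hv
    apply key (-v)
    have h2 : (1 + (T 1 - 1) * -v) * Δ = -(q * Δ) := by
      rw [hv]
      simp only [Nat.cast_one, map_neg, map_one]
      ring
    rw [h2]
    exact I.neg_mem h

/-- The torsion subgroup is the kernel of every surjection onto the integers. -/
lemma ker_eq_torsion {H : Type} [AddCommGroup H] (hR : IsRankOneFG H) (φ : H →+ ℤ)
    (hφ : Function.Surjective φ) (x : H) : φ x = 0 ↔ x ∈ AddCommGroup.torsion H := by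
  obtain ⟨-, ⟨ψ⟩⟩ := hR
  have htor : ∀ y ∈ AddCommGroup.torsion H, φ y = 0 := by
    intro y hy
    have hy' : IsOfFinAddOrder y := hy
    obtain ⟨n, hn, h⟩ := isOfFinAddOrder_iff_nsmul_eq_zero.mp hy'
    have h1 := congrArg φ h
    rw [map_nsmul, map_zero, nsmul_eq_mul] at h1
    rcases mul_eq_zero.mp h1 with h2 | h2
    · have : n = 0 := by exact_mod_cast h2
      omega
    · exact h2
  refine ⟨fun hx => ?_, fun hx => htor x hx⟩
  let ρ0 : (H ⧸ AddCommGroup.torsion H) →+ ℤ := QuotientAddGroup.lift _ φ (fun y hy => htor y hy)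
  let ρ : ℤ →+ ℤ := ρ0.comp ψ.symm.toAddMonoidHom
  have hρ : ∀ n : ℤ, ρ n = n * ρ 1 := by
    intro n
    have : n = n • (1 : ℤ) := by simp
    conv_lhs => rw [this, map_zsmul]
    simp
  have hρs : Function.Surjective ρ := by
    intro n
    obtain ⟨y, hy⟩ := hφ n
    refine ⟨ψ (QuotientAddGroup.mk y), ?_⟩
    change ρ0 (ψ.symm (ψ (QuotientAddGroup.mk y))) = n
    rw [ψ.symm_apply_apply]
    exact hy
  have h1 : ρ 1 ≠ 0 := by
    intro h
    obtain ⟨n, hn⟩ := hρs 1
    rw [hρ, h, mul_zero] at hn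
    exact zero_ne_one hn
  have h2 : ρ (ψ (QuotientAddGroup.mk x)) = 0 := by
    change ρ0 (ψ.symm (ψ (QuotientAddGroup.mk x))) = 0
    rw [ψ.symm_apply_apply]
    exact hx
  rw [hρ] at h2
  have h3 : ψ (QuotientAddGroup.mk x) = 0 := (mul_eq_zero.mp h2).resolve_right h1
  have h4 : (QuotientAddGroup.mk x : H ⧸ AddCommGroup.torsion H) = 0 := by
    apply ψ.injective
    rw [h3, map_zero]
  exact (QuotientAddGroup.eq_zero_iff x).mp h4

lemma ne_zero_of_torsion {H : Type} [AddCommGroup H] {ι : Type} (d : ι → ℕ)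
    (e : AddCommGroup.torsion H ≃+ (∀ i, ZMod (d i))) (i : ι) : d i ≠ 0 := by
  classical
  intro h0
  have h1 : IsOfFinAddOrder ((e.symm (Pi.single i 1) : AddCommGroup.torsion H) : H) :=
    (e.symm (Pi.single i 1)).2
  obtain ⟨n, hn, h⟩ := isOfFinAddOrder_iff_nsmul_eq_zero.mp h1
  have h2 : n • (e.symm (Pi.single i 1)) = 0 := by
    apply Subtype.ext
    rw [AddSubgroup.coe_nsmul, h]
    rfl
  have h3 : n • (Pi.single i 1 : ∀ i, ZMod (d i)) = 0 := by
    rw [← e.apply_symm_apply (Pi.single i 1), ← map_nsmul, h2, map_zero]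
  have h4 := congrFun h3 i
  rw [Pi.smul_apply, Pi.single_eq_same, nsmul_eq_mul, mul_one, Pi.zero_apply] at h4
  have h5 := (ZMod.natCast_eq_zero_iff n (d i)).mp h4
  rw [h0] at h5
  have := Nat.eq_zero_of_zero_dvd h5
  omega

/-- **The new necessary condition.** -/
theorem necessary {H : Type} [AddCommGroup H] {Δ : ℤ[T;T⁻¹]} {M : Type} [TopologicalSpace M]
    {ι : Type} [Fintype ι] (d : ι → ℕ) (hR : IsRankOneFG H) (hC : Conditions H Δ)
    (hM : Realizes M H Δ) (e : AddCommGroup.torsion H ≃+ (∀ i, ZMod (d i))) :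
    Δ ∈ ∏ i, J (d i) := by
  classical
  have hd := ne_zero_of_torsion d e
  obtain ⟨⟨f⟩, C, n, g, hg, hE, -⟩ := hM
  obtain ⟨δ, hδ, hδ0⟩ := les_delta' C
  let φ : H →+ ℤ := δ.comp f.toAddMonoidHom
  have hφ : Function.Surjective φ := hδ.comp f.surjective
  have hker := ker_eq_torsion hR φ hφ
  let P : AlexanderModule C →+ H1 M := (H1map C.p).toAddMonoidHom
  let Q : AlexanderModule C →+ H := f.symm.toAddMonoidHom.comp P
  have hQ : ∀ x, Q x ∈ AddCommGroup.torsion H := by
    intro x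
    rw [← hker]
    change δ (f (f.symm (P x))) = 0
    rw [f.apply_symm_apply]
    exact (hδ0 _).mpr ⟨x, rfl⟩
  let π : AlexanderModule C →+ (∀ i, ZMod (d i)) :=
    e.toAddMonoidHom.comp (Q.codRestrict (AddCommGroup.torsion H) hQ)
  have hπapp : ∀ x, π x = e ⟨Q x, hQ x⟩ := fun x => rfl
  have hπ : Function.Surjective π := by
    intro v
    have h2 : δ (f (e.symm v : H)) = 0 := (hker _).mpr (e.symm v).2
    obtain ⟨x, hx⟩ := (hδ0 _).mp h2
    refine ⟨x, ?_⟩
    rw [hπapp]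
    have h3 : (⟨Q x, hQ x⟩ : AddCommGroup.torsion H) = e.symm v := by
      apply Subtype.ext
      change f.symm (P x) = _
      have : P x = f (e.symm v : H) := hx
      rw [this, f.symm_apply_apply]
    rw [h3, e.apply_symm_apply]
  have hk : ∀ x, π x = 0 ↔ ∃ y, x = (T 1 - 1 : ℤ[T;T⁻¹]) • y := by
    intro x
    rw [← les_one' C x, hπapp]
    constructor
    · intro h
      have h2 : (⟨Q x, hQ x⟩ : AddCommGroup.torsion H) = 0 := by
        apply e.injective
        rw [h, map_zero]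
      have h3 : Q x = 0 := congrArg Subtype.val h2
      have h4 := congrArg f h3
      change f (f.symm (P x)) = f 0 at h4
      rw [f.apply_symm_apply, map_zero] at h4
      exact h4
    · intro h
      have h2 : (⟨Q x, hQ x⟩ : AddCommGroup.torsion H) = 0 := by
        apply Subtype.ext
        change f.symm (P x) = 0
        have : P x = 0 := h
        rw [this, map_zero]
      rw [h2, map_zero]
  obtain ⟨R, hRel, hRdet, hRmem⟩ := exists_relations g hg d hd π hπ hk
  have hR2 : R.det ∈ Ideal.span {Δ} := hE (Ideal.subset_span ⟨R, hRel, rfl⟩)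
  obtain ⟨q, hq⟩ := Ideal.mem_span_singleton.mp hR2
  have hcard : Nat.card (AddCommGroup.torsion H) = ∏ i, d i := by
    rw [Nat.card_congr e.toEquiv, Nat.card_pi]
    exact Finset.prod_congr rfl fun i _ => Nat.card_zmod _
  have hpos : 0 < ∏ i, d i := Finset.prod_pos fun i _ => Nat.pos_of_ne_zero (hd i)
  have hΔ : (aug Δ).natAbs = ∏ i, d i := by
    rcases hC.2 with h | h
    · change aug Δ = _ at h
      rw [h, hcard, Int.natAbs_natCast]
    · change aug Δ = _ at h
      rw [h, hcard, Int.natAbs_neg, Int.natAbs_natCast]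
  have hq1 : (aug q).natAbs = 1 := by
    rw [hq, map_mul, Int.natAbs_mul, hΔ] at hRdet
    exact Nat.eq_of_mul_eq_mul_left hpos (by rw [hRdet, mul_one])
  refine unit_cancel _ (Fintype.card ι) ?_ q Δ hq1 ?_
  · have : ∏ _i : ι, (T 1 - 1 : ℤ[T;T⁻¹]) ∈ ∏ i, J (d i) :=
      Ideal.prod_mem_prod fun i _ => s_mem _
    rwa [Finset.prod_const, Finset.card_univ] at this
  · rw [mul_comm, ← hq]
    exact hRmem

end Pool.Agent.Y830.AL
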